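import Pool.Agent.FR.Final

/-!
# MP_9cfac0_co, Q1: only finitely many Forman–Ricci positive 5-polytopes

The definitions (polytope, face lattice, dimension, Forman–Ricci curvature of an edge, combinatorial
equivalence) are in `Pool/Agent/FR/Poly.lean`.
-/

namespace Pool.Agent.Results.MP_9cfac0_co.FiniteFRPositive

open FRPoly

/-- Up to combinatorial equivalence there are only finitely many Forman–Ricci positive
5-dimensional polytopes: there is a finite list of them such that every Forman–Ricci positive
5-dimensional polytope (in any `ℝⁿ`) is combinatorially equivalent to a member of the list. -/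
theorem result :
    ∃ (k : ℕ) (d : Fin k → ℕ) (R : (i : Fin k) → Set (Fin (d i) → ℝ)),
      (∀ i, IsPolytope (R i) ∧ pdim (R i) = 5 ∧ FRPositive (R i)) ∧
      ∀ (n : ℕ) (P : Set (Fin n → ℝ)), IsPolytope P → pdim P = 5 → FRPositive P →
        ∃ i, CombEquiv P (R i) :=
  FRC.final

end Pool.Agent.Results.MP_9cfac0_co.FiniteFRPositive
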